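import Mathlib
import Pool.Agent.Lib.MP_1dd1a8_co.Defs

section

set_option autoImplicit false

/-!
A relative difference family in `ZMod 231` (block size `5`, index `4`, relative to the subgroup of
order `21`), with `42` base blocks, each of which meets every translate of the union of the
residue classes `0, 3, 4, 5` modulo `7` in an even number of points. Found by simulated annealing.
-/

namespace Pool.Agent.Lib.MP_1dd1a8_co_helper82

/-- The base blocks. -/
def R : Fin 42 → Fin 5 → ℕ := ![
  ![11, 35, 58, 180, 196],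
  ![88, 112, 119, 180, 212],
  ![49, 141, 204, 212, 220],
  ![58, 141, 143, 203, 204],
  ![12, 17, 27, 54, 229],
  ![12, 27, 54, 94, 152],
  ![57, 69, 172, 192, 230],
  ![57, 69, 76, 95, 192],
  ![9, 41, 137, 139, 222],
  ![9, 62, 118, 214, 222],
  ![9, 46, 71, 81, 160],
  ![9, 81, 83, 148, 200],
  ![18, 41, 82, 136, 186],
  ![5, 18, 59, 118, 186],
  ![23, 51, 135, 178, 217],
  ![51, 100, 101, 135, 140],
  ![28, 45, 58, 62, 202],
  ![45, 125, 139, 182, 212],
  ![62, 83, 87, 196, 198],
  ![87, 119, 139, 160, 198],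
  ![9, 38, 47, 139, 184],
  ![9, 62, 107, 115, 124],
  ![44, 150, 157, 185, 217],
  ![31, 80, 121, 140, 150],
  ![15, 66, 112, 113, 149],
  ![15, 35, 66, 190, 226],
  ![14, 96, 144, 191, 196],
  ![37, 91, 96, 119, 144],
  ![2, 33, 51, 76, 122],
  ![33, 51, 79, 199, 230],
  ![27, 92, 96, 183, 199],
  ![27, 96, 122, 169, 183],
  ![154, 164, 167, 171, 228],
  ![10, 13, 77, 171, 228],
  ![12, 88, 114, 200, 214],
  ![11, 12, 46, 114, 137],
  ![72, 96, 210, 219, 225],
  ![33, 102, 108, 114, 192],
  ![108, 138, 153, 159, 180],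
  ![6, 48, 84, 129, 198],
  ![72, 108, 111, 120, 213],
  ![117, 141, 144, 192, 222]]

/-- The four residues modulo `7`. -/
def S : Finset (ZMod 7) := {0, 3, 4, 5}

/-- The `(21, 5, 1)` difference set. -/
def D : Fin 5 → ℕ := ![3, 6, 7, 12, 14]

lemma R_lt : ∀ r p, R r p < 231 := by decide

lemma R_inj : ∀ r p q, R r p % 11 = R r q % 11 → p = q := by decide +kernel

lemma R_even : ∀ (r : Fin 42) (s : ZMod 7),
    Even (Finset.univ.filter fun k : Fin 5 => ((R r k : ℕ) : ZMod 7) + s ∈ S).card := by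
  decide +kernel

lemma D_even : ∀ (s : ZMod 7),
    Even (Finset.univ.filter fun k : Fin 5 => ((D k : ℕ) : ZMod 7) + s ∈ S).card := by
  decide +kernel

lemma S_card : ∀ a : ZMod 7, (Finset.univ.filter fun s : ZMod 7 => a + s ∈ S).card = 4 := by
  decide +kernel

lemma D_lt : ∀ p, D p < 21 := by decide

lemma D_inj : ∀ p q, D p = D q → p = q := by decide

lemma D_diff : ∀ d : Fin 21, d ≠ 0 →
    (Finset.univ.filter fun p : Fin 5 × Fin 5 => (D p.1 + (21 - D p.2)) % 21 = d.val).card = 1 := by
  decide +kernel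

lemma R_diff : ∀ d : Fin 231, d.val % 11 ≠ 0 →
    ∑ r, (Finset.univ.filter fun p : Fin 5 × Fin 5 =>
      (R r p.1 + (231 - R r p.2)) % 231 = d.val).card = 4 := by
  decide +kernel

end Pool.Agent.Lib.MP_1dd1a8_co_helper82
end

section

set_option autoImplicit false

/-!
Difference families of block size `5` and index `4` modulo `21 * 11 ^ n`, all of whose blocks meet
every translate of `S` (a union of four residue classes modulo `7`) in an even number of points.
-/

namespace Pool.Agent.Lib.MP_1dd1a8_co_helper82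

open Finset

/-- A difference family with index set `ι` modulo `v` (block size `5`, index `4`) with the parity
property. -/
structure IsDF (v : ℕ) {ι : Type} [Fintype ι] (b : ι → Fin 5 → ℤ) : Prop where
  card : 5 * Fintype.card ι + 1 = v
  inj : ∀ i p q, (v : ℤ) ∣ b i p - b i q → p = q
  diff : ∀ d : ℤ, ¬ (v : ℤ) ∣ d →
    ∑ i, #{p : Fin 5 × Fin 5 | (v : ℤ) ∣ b i p.1 - b i p.2 - d} = 4
  even : ∀ i (s : ZMod 7), Even #{k : Fin 5 | ((b i k : ℤ) : ZMod 7) + s ∈ S}

lemma base : IsDF 21 (ι := Fin 4) fun _ k => (D k : ℤ) := by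
  refine ⟨by simp, ?_, ?_, ?_⟩
  · intro _ p q h
    have hp := D_lt p
    have hq := D_lt q
    exact D_inj p q (by push_cast at h; omega)
  · intro d hd
    have h1 := D_diff ⟨(d % 21).toNat, by omega⟩ (by
      intro h
      rw [Fin.ext_iff] at h
      simp only [Fin.val_zero] at h
      push_cast at hd
      omega)
    rw [Finset.sum_const, Finset.card_univ, Fintype.card_fin, smul_eq_mul]
    suffices #{p : Fin 5 × Fin 5 | ((21 : ℕ) : ℤ) ∣ (D p.1 : ℤ) - (D p.2 : ℤ) - d} = 1 by
      rw [this]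
    rw [← h1]
    congr 1
    ext p
    have hp := D_lt p.1
    have hq := D_lt p.2
    simp only [mem_filter, mem_univ, true_and]
    push_cast
    omega
  · intro _ s
    have := D_even s
    simpa using this

/-- The blocks of the next family. -/
def next {ι : Type} (b : ι → Fin 5 → ℤ) (m : ℕ) : ι ⊕ (Fin 42 × Fin m) → Fin 5 → ℤ
  | .inl i => fun k => 22 * b i k
  | .inr rj => fun k => (R rj.1 k : ℤ) + 231 * ((k.val : ℤ) * (rj.2.val : ℤ))

lemma seven22 : (22 : ZMod 7) = 1 := by decide

lemma seven231 : (231 : ZMod 7) = 0 := by decide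

/-- Modulo `11 ^ n` the multiples of a small nonzero number form a complete residue system. -/
lemma count_lift (n : ℕ) (e c : ℤ) (hc : c ≠ 0) (hc1 : -5 < c) (hc2 : c < 5) :
    #{j : Fin (11 ^ n) | ((11 ^ n : ℕ) : ℤ) ∣ e + c * (j.val : ℤ)} = 1 := by
  have hcop : IsCoprime c ((11 ^ n : ℕ) : ℤ) := by
    push_cast
    apply IsCoprime.pow_right
    rw [Int.isCoprime_iff_gcd_eq_one]
    interval_cases c <;> first | rfl | exact absurd rfl hc
  obtain ⟨x, y, hxy⟩ := hcop
  have hpos : (0 : ℤ) < ((11 ^ n : ℕ) : ℤ) := by positivity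
  set M : ℤ := ((11 ^ n : ℕ) : ℤ) with hM
  rw [Finset.card_eq_one]
  refine ⟨⟨((-e * x) % M).toNat, ?_⟩, ?_⟩
  · have h1 := Int.emod_lt_of_pos (-e * x) hpos
    have h2 := Int.emod_nonneg (-e * x) hpos.ne'
    have : (((-e * x) % M).toNat : ℤ) < ((11 ^ n : ℕ) : ℤ) := by
      rw [Int.toNat_of_nonneg h2]; exact h1
    exact_mod_cast this
  · ext j
    simp only [mem_filter, mem_univ, true_and, mem_singleton, Fin.ext_iff]
    have h2 := Int.emod_nonneg (-e * x) hpos.ne'
    have hj : (j.val : ℤ) < M := by rw [hM]; exact_mod_cast j.isLt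
    have hj0 : (0 : ℤ) ≤ (j.val : ℤ) := by positivity
    constructor
    · intro h
      have h3 : M ∣ (j.val : ℤ) - (-e * x) := by
        have h4 : (j.val : ℤ) - (-e * x) = x * (e + c * (j.val : ℤ)) + (y * (j.val : ℤ)) * M := by
          linear_combination (-(j.val : ℤ)) * hxy
        rw [h4]
        exact dvd_add (Dvd.dvd.mul_left h x) (Dvd.intro_left _ rfl)
      have h5 : (j.val : ℤ) % M = (-e * x) % M := (Int.modEq_iff_dvd.mpr h3).symm
      rw [Int.emod_eq_of_lt hj0 hj] at h5
      rw [← h5]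
      simp
    · intro h
      have h3 : (j.val : ℤ) = (-e * x) % M := by
        rw [h]
        exact Int.toNat_of_nonneg h2
      have h4 : M ∣ (-e * x) - (j.val : ℤ) := by
        rw [h3]
        exact Int.dvd_self_sub_emod
      have h6 : e + c * (j.val : ℤ) = (e * y) * M - c * ((-e * x) - (j.val : ℤ)) := by
        linear_combination (-e) * hxy
      rw [h6]
      exact dvd_sub (Dvd.intro_left _ rfl) (Dvd.dvd.mul_left h4 c)

/-- Number of lifts of a pair of points of a base block with a given difference `d`. -/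
lemma lift_pair (n : ℕ) (d : ℤ) (hd : ¬ ((21 * 11 ^ (n + 1) : ℕ) : ℤ) ∣ d) (h11 : ¬ (11 : ℤ) ∣ d)
    (r : Fin 42) (p q : Fin 5) :
    #{j : Fin (11 ^ n) | ((21 * 11 ^ (n + 1) : ℕ) : ℤ) ∣
      ((R r p : ℤ) + 231 * ((p.val : ℤ) * (j.val : ℤ)))
        - ((R r q : ℤ) + 231 * ((q.val : ℤ) * (j.val : ℤ))) - d}
      = if (R r p + (231 - R r q)) % 231 = (d % 231).toNat then 1 else 0 := by
  have hv'' : ((21 * 11 ^ (n + 1) : ℕ) : ℤ) = 231 * ((11 ^ n : ℕ) : ℤ) := by
    push_cast
    ring
  have hp := R_lt r p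
  have hq := R_lt r q
  by_cases hpq : p = q
  · subst hpq
    rw [if_neg (by omega), Finset.card_eq_zero, Finset.filter_eq_empty_iff]
    intro j _ hj
    apply hd
    rw [sub_self, zero_sub, dvd_neg] at hj
    exact hj
  · by_cases h231 : (231 : ℤ) ∣ (R r p : ℤ) - (R r q : ℤ) - d
    · rw [if_pos (by omega)]
      obtain ⟨e, he⟩ := h231
      have hpv := p.isLt
      have hqv := q.isLt
      have hne : p.val ≠ q.val := fun h' => hpq (Fin.ext h')
      refine Eq.trans ?_
        (count_lift n e ((p.val : ℤ) - (q.val : ℤ)) (by omega) (by omega) (by omega))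
      congr 1
      ext j
      simp only [mem_filter, mem_univ, true_and]
      rw [hv'']
      have e1 : ((R r p : ℤ) + 231 * ((p.val : ℤ) * (j.val : ℤ)))
        - ((R r q : ℤ) + 231 * ((q.val : ℤ) * (j.val : ℤ))) - d
        = 231 * (e + ((p.val : ℤ) - (q.val : ℤ)) * (j.val : ℤ)) := by
        linear_combination he
      rw [e1, Int.mul_dvd_mul_iff_left (by norm_num : (231 : ℤ) ≠ 0)]
    · rw [if_neg (by omega), Finset.card_eq_zero, Finset.filter_eq_empty_iff]
      intro j _ hj
      apply h231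
      rw [hv''] at hj
      have h1 : (231 : ℤ) ∣ ((R r p : ℤ) + 231 * ((p.val : ℤ) * (j.val : ℤ)))
        - ((R r q : ℤ) + 231 * ((q.val : ℤ) * (j.val : ℤ))) - d :=
          dvd_trans (Dvd.intro _ rfl) hj
      generalize (p.val : ℤ) * (j.val : ℤ) = A at h1
      generalize (q.val : ℤ) * (j.val : ℤ) = B at h1
      omega

lemma step (n : ℕ) {ι : Type} [Fintype ι] (b : ι → Fin 5 → ℤ) (h : IsDF (21 * 11 ^ n) b) :
    IsDF (21 * 11 ^ (n + 1)) (next b (11 ^ n)) := by
  have hodd : (21 * 11 ^ n) % 2 = 1 := by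
    have : Odd (21 * 11 ^ n) := by
      apply Odd.mul (by decide)
      exact Odd.pow (by decide)
    exact Nat.odd_iff.mp this
  have hv' : ((21 * 11 ^ (n + 1) : ℕ) : ℤ) = 11 * ((21 * 11 ^ n : ℕ) : ℤ) := by
    push_cast
    ring
  have hv'' : ((21 * 11 ^ (n + 1) : ℕ) : ℤ) = 231 * ((11 ^ n : ℕ) : ℤ) := by
    push_cast
    ring
  set v : ℕ := 21 * 11 ^ n with hv
  refine ⟨?_, ?_, ?_, ?_⟩
  · rw [Fintype.card_sum, Fintype.card_prod, Fintype.card_fin, Fintype.card_fin]
    have := h.card
    have e : 21 * 11 ^ (n + 1) = v + 210 * 11 ^ n := by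
      rw [hv, pow_succ]; ring
    rw [e]
    omega
  · rintro (i | ⟨r, j⟩) p q hpq
    · simp only [next] at hpq
      rw [hv'] at hpq
      apply h.inj i p q
      obtain ⟨c, hc⟩ := hpq
      have h1 : 2 * (b i p - b i q) = v * c := by
        have : 11 * (2 * (b i p - b i q)) = 11 * (v * c) := by linear_combination hc
        omega
      have h2 : IsCoprime (v : ℤ) 2 := by
        rw [Int.isCoprime_iff_gcd_eq_one]
        have : Nat.Coprime v 2 := by
          rw [Nat.coprime_comm, Nat.prime_two.coprime_iff_not_dvd]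
          omega
        exact_mod_cast this
      exact h2.dvd_of_dvd_mul_left (Dvd.intro _ h1.symm)
    · simp only [next] at hpq
      rw [hv''] at hpq
      have h1 : (231 : ℤ) ∣ (R r p : ℤ) + 231 * ((p.val : ℤ) * (j.val : ℤ))
          - ((R r q : ℤ) + 231 * ((q.val : ℤ) * (j.val : ℤ))) := dvd_trans (Dvd.intro _ rfl) hpq
      apply R_inj r p q
      generalize (p.val : ℤ) * (j.val : ℤ) = A at h1
      generalize (q.val : ℤ) * (j.val : ℤ) = B at h1
      omega
  · intro d hd
    rw [Fintype.sum_sum_type, Fintype.sum_prod_type]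
    by_cases h11 : (11 : ℤ) ∣ d
    · -- multiples of `11`
      obtain ⟨e, rfl⟩ := h11
      have hs : ∀ (r : Fin 42) (j : Fin (11 ^ n)), #{p : Fin 5 × Fin 5 |
          ((21 * 11 ^ (n + 1) : ℕ) : ℤ) ∣ next b (11 ^ n) (.inr (r, j)) p.1
          - next b (11 ^ n) (.inr (r, j)) p.2 - 11 * e} = 0 := by
        intro r j
        rw [Finset.card_eq_zero, Finset.filter_eq_empty_iff]
        rintro ⟨p, q⟩ _ hpq
        simp only [next] at hpq
        have h1 : (231 : ℤ) ∣ ((R r p : ℤ) + 231 * ((p.val : ℤ) * (j.val : ℤ)))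
          - ((R r q : ℤ) + 231 * ((q.val : ℤ) * (j.val : ℤ))) - 11 * e := by
          rw [hv''] at hpq
          exact dvd_trans (Dvd.intro _ rfl) hpq
        have h2 : p = q := by
          apply R_inj r p q
          generalize (p.val : ℤ) * (j.val : ℤ) = A at h1
          generalize (q.val : ℤ) * (j.val : ℤ) = B at h1
          omega
        subst h2
        apply hd
        rw [sub_self, zero_sub, dvd_neg] at hpq
        exact hpq
      rw [Finset.sum_eq_zero (s := (univ : Finset (Fin 42)))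
        (fun r _ => Finset.sum_eq_zero fun j _ => hs r j), add_zero]
      obtain ⟨w, hw⟩ : ∃ w : ℤ, 2 * w = v + 1 := ⟨((v : ℤ) + 1) / 2, by omega⟩
      have h2 : IsCoprime (v : ℤ) 2 := by
        rw [Int.isCoprime_iff_gcd_eq_one]
        have : Nat.Coprime v 2 := by
          rw [Nat.coprime_comm, Nat.prime_two.coprime_iff_not_dvd]
          omega
        exact_mod_cast this
      have h3 : ∀ z : ℤ, (((21 * 11 ^ (n + 1) : ℕ) : ℤ) ∣ 22 * z - 11 * e) ↔
          ((v : ℤ) ∣ z - e * w) := by
        intro z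
        rw [hv']
        have e1 : 22 * z - 11 * e = 11 * (2 * z - e) := by ring
        rw [e1, Int.mul_dvd_mul_iff_left (by norm_num : (11 : ℤ) ≠ 0)]
        have e2 : 2 * z - e = 2 * (z - e * w) + e * v := by linear_combination e * hw
        rw [e2]
        constructor
        · intro h4
          have h5 : (v : ℤ) ∣ 2 * (z - e * w) := by
            have := dvd_sub h4 (Dvd.intro_left e rfl : (v : ℤ) ∣ e * v)
            simpa using this
          exact h2.dvd_of_dvd_mul_left h5
        · intro h4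
          exact dvd_add (Dvd.dvd.mul_left h4 2) (Dvd.intro_left e rfl)
      rw [← h.diff (e * w) ?_]
      · refine Finset.sum_congr rfl fun i _ => ?_
        congr 1
        ext p
        rw [Finset.mem_filter, Finset.mem_filter, ← h3, mul_sub]
        rfl
      · intro h4
        apply hd
        have := (h3 0).mpr (by rw [zero_sub, dvd_neg]; exact h4)
        rw [mul_zero, zero_sub, dvd_neg] at this
        exact this
    · have hs : ∀ i : ι, #{p : Fin 5 × Fin 5 |
          ((21 * 11 ^ (n + 1) : ℕ) : ℤ) ∣ next b (11 ^ n) (.inl i) p.1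
          - next b (11 ^ n) (.inl i) p.2 - d} = 0 := by
        intro i
        rw [Finset.card_eq_zero, Finset.filter_eq_empty_iff]
        rintro ⟨p, q⟩ _ hpq
        simp only [next] at hpq
        rw [hv'] at hpq
        have h1 : (11 : ℤ) ∣ 22 * b i p - 22 * b i q - d := dvd_trans (Dvd.intro _ rfl) hpq
        omega
      rw [Finset.sum_eq_zero (s := (univ : Finset ι)) (fun i _ => hs i), zero_add]
      have h1 := R_diff ⟨(d % 231).toNat, by omega⟩ (by simp only; omega)
      rw [← h1]
      refine Finset.sum_congr rfl fun r _ => ?_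
      have hswap : ∑ j : Fin (11 ^ n), #{p : Fin 5 × Fin 5 |
          ((21 * 11 ^ (n + 1) : ℕ) : ℤ) ∣ next b (11 ^ n) (.inr (r, j)) p.1
          - next b (11 ^ n) (.inr (r, j)) p.2 - d}
          = ∑ p : Fin 5 × Fin 5, #{j : Fin (11 ^ n) | ((21 * 11 ^ (n + 1) : ℕ) : ℤ) ∣
            ((R r p.1 : ℤ) + 231 * ((p.1.val : ℤ) * (j.val : ℤ)))
            - ((R r p.2 : ℤ) + 231 * ((p.2.val : ℤ) * (j.val : ℤ))) - d} := by
        simp only [Finset.card_filter]
        rw [Finset.sum_comm]
        rfl
      rw [hswap, Finset.card_filter]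
      exact Finset.sum_congr rfl fun p _ => lift_pair n d hd h11 r p.1 p.2
  · rintro (i | ⟨r, j⟩) s
    · have := h.even i s
      simp only [next, Int.cast_mul]
      have e22 : ((22 : ℤ) : ZMod 7) = 1 := by decide
      simpa only [e22, one_mul] using this
    · have := R_even r s
      simp only [next, Int.cast_add, Int.cast_mul]
      have e231 : ((231 : ℤ) : ZMod 7) = 0 := by decide
      simpa only [e231, zero_mul, add_zero, Int.cast_natCast] using this

/-- The difference families exist modulo `21 * 11 ^ n`. -/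
theorem exists_isDF (n : ℕ) : ∃ (ι : Type) (_ : Fintype ι) (b : ι → Fin 5 → ℤ),
    IsDF (21 * 11 ^ n) b := by
  induction n with
  | zero => exact ⟨Fin 4, inferInstance, _, by simpa using base⟩
  | succ n ih =>
    obtain ⟨ι, hι, b, hb⟩ := ih
    exact ⟨_, inferInstance, _, step n b hb⟩

end Pool.Agent.Lib.MP_1dd1a8_co_helper82
end

section

set_option autoImplicit false

/-!
The cyclic design generated by a difference family with the parity property has full orbits only
and no system of disjoint representatives.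
-/

namespace Pool.Agent.Lib.MP_1dd1a8_co_helper82

open scoped Pointwise
open Finset Pool.Agent.Lib.MP_1dd1a8_co

section

variable {v : ℕ} [NeZero v] {ι : Type} [Fintype ι] (b : ι → Fin 5 → ℤ)

/-- The base block with index `i`. -/
def blk (v : ℕ) [NeZero v] {ι : Type} (b : ι → Fin 5 → ℤ) (i : ι) : Finset (ZMod v) :=
  Finset.univ.image fun k => ((b i k : ℤ) : ZMod v)

/-- All translates of all base blocks. -/
def dev (v : ℕ) [NeZero v] {ι : Type} [Fintype ι] (b : ι → Fin 5 → ℤ) :
    Multiset (Finset (ZMod v)) :=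
  (Finset.univ : Finset (ι × ZMod v)).val.map fun x => x.2 +ᵥ blk v b x.1

variable {b}

lemma cast_inj (h : IsDF v b) (i : ι) :
    Function.Injective fun k => ((b i k : ℤ) : ZMod v) := by
  intro p q hpq
  apply h.inj i p q
  simp only at hpq
  rw [← ZMod.intCast_zmod_eq_zero_iff_dvd, Int.cast_sub, hpq, sub_self]

lemma card_blk (h : IsDF v b) (i : ι) : (blk v b i).card = 5 := by
  unfold blk
  rw [Finset.card_image_of_injective _ (cast_inj h i), Finset.card_univ, Fintype.card_fin]

lemma mem_vadd_blk (t : ZMod v) (i : ι) (x : ZMod v) :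
    x ∈ t +ᵥ blk v b i ↔ ∃ k, t + ((b i k : ℤ) : ZMod v) = x := by
  rw [Finset.mem_vadd_finset]
  unfold blk
  simp only [mem_image, mem_univ, true_and, exists_exists_eq_and, vadd_eq_add]

lemma pair_count (h : IsDF v b) {x y : ZMod v} (hxy : x ≠ y) (i : ι) :
    #{t : ZMod v | x ∈ t +ᵥ blk v b i ∧ y ∈ t +ᵥ blk v b i}
      = #{p : Fin 5 × Fin 5 | (v : ℤ) ∣ b i p.1 - b i p.2 - ((x.val : ℤ) - (y.val : ℤ))} := by
  symm
  apply Finset.card_bij (fun p _ => x - ((b i p.1 : ℤ) : ZMod v))
  · rintro ⟨p, q⟩ hp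
    simp only [mem_filter, mem_univ, true_and] at hp ⊢
    rw [← ZMod.intCast_zmod_eq_zero_iff_dvd] at hp
    push_cast at hp
    rw [ZMod.natCast_zmod_val, ZMod.natCast_zmod_val] at hp
    rw [mem_vadd_blk, mem_vadd_blk]
    exact ⟨⟨p, by ring⟩, ⟨q, by linear_combination -hp⟩⟩
  · rintro ⟨p, q⟩ hp ⟨p', q'⟩ hp' heq
    simp only [mem_filter, mem_univ, true_and] at hp hp' heq
    have h1 : p = p' := cast_inj h i (sub_right_injective heq)
    subst h1
    rw [← ZMod.intCast_zmod_eq_zero_iff_dvd] at hp hp'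
    push_cast at hp hp'
    have h2 : ((b i q : ℤ) : ZMod v) = ((b i q' : ℤ) : ZMod v) := by
      linear_combination hp' - hp
    rw [cast_inj h i h2]
  · intro t ht
    simp only [mem_filter, mem_univ, true_and] at ht
    rw [mem_vadd_blk, mem_vadd_blk] at ht
    obtain ⟨⟨p, hp⟩, ⟨q, hq⟩⟩ := ht
    refine ⟨(p, q), ?_, ?_⟩
    · simp only [mem_filter, mem_univ, true_and]
      rw [← ZMod.intCast_zmod_eq_zero_iff_dvd]
      push_cast
      rw [ZMod.natCast_zmod_val, ZMod.natCast_zmod_val, ← hp, ← hq]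
      ring
    · simp only
      rw [← hp]
      ring

lemma map_dev (t : ZMod v) : (dev v b).map (fun B => t +ᵥ B) = dev v b := by
  unfold dev
  rw [Multiset.map_map]
  have h1 := Multiset.map_univ_val_equiv
    ((Equiv.refl ι).prodCongr (Equiv.addLeft t))
  conv_rhs => rw [← h1]
  rw [Multiset.map_map]
  refine Multiset.map_congr rfl fun i _ => ?_
  simp only [Function.comp_apply, Equiv.prodCongr_apply, Equiv.coe_refl, Equiv.coe_addLeft,
    vadd_vadd, Prod.map_fst, Prod.map_snd, id_eq]

lemma isCyclicDesign (h : IsDF v b) : IsCyclicDesign v 5 4 (dev v b) := by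
  classical
  refine ⟨?_, ?_, ?_⟩
  · intro B hB
    unfold dev at hB
    rw [Multiset.mem_map] at hB
    obtain ⟨x, _, rfl⟩ := hB
    rw [Finset.card_vadd_finset, card_blk h]
  · intro x y hxy
    unfold dev
    rw [Multiset.countP_map]
    have e1 : (Multiset.filter (fun z : ι × ZMod v => x ∈ z.2 +ᵥ blk v b z.1 ∧
        y ∈ z.2 +ᵥ blk v b z.1) (Finset.univ : Finset (ι × ZMod v)).val).card
        = #{z : ι × ZMod v | x ∈ z.2 +ᵥ blk v b z.1 ∧ y ∈ z.2 +ᵥ blk v b z.1} := by
      rw [← Finset.card_val, Finset.filter_val]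
    rw [e1, Finset.card_filter, Fintype.sum_prod_type]
    simp only [← Finset.card_filter]
    have hd : ¬ (v : ℤ) ∣ ((x.val : ℤ) - (y.val : ℤ)) := by
      rw [← ZMod.intCast_zmod_eq_zero_iff_dvd]
      push_cast
      rw [ZMod.natCast_zmod_val, ZMod.natCast_zmod_val, sub_eq_zero]
      exact hxy
    rw [← h.diff _ hd]
    exact Finset.sum_congr rfl fun i _ => pair_count h hxy i
  · intro t B
    conv_lhs => rw [← map_dev t]
    exact Multiset.count_map_eq_count' _ _ (AddAction.injective t) B

/-- A block of size `5` modulo a number prime to `5` has a trivial stabiliser. -/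
lemma stab_trivial (hv : Nat.Coprime 5 v) (B : Finset (ZMod v)) (hB : B.card = 5) (t : ZMod v)
    (ht : t +ᵥ B = B) : t = 0 := by
  have h1 : ∑ x ∈ t +ᵥ B, x = ∑ x ∈ B, (t + x) := by
    have : t +ᵥ B = B.image fun x => t + x := rfl
    rw [this, Finset.sum_image]
    intro x _ y _ hxy
    exact add_left_cancel hxy
  rw [ht, Finset.sum_add_distrib, Finset.sum_const, hB] at h1
  have h2 : (5 : ℕ) • t = 0 := by
    have := h1
    rw [eq_comm, add_eq_right] at this
    exact this
  rw [nsmul_eq_mul] at h2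
  have h3 : IsUnit ((5 : ℕ) : ZMod v) := (ZMod.isUnit_iff_coprime 5 v).mpr hv
  exact (h3.mul_right_eq_zero).mp h2

/-- The parity property of all blocks. -/
lemma even_of_mem (h : IsDF v b) (h7 : 7 ∣ v) {B : Finset (ZMod v)} (hB : B ∈ dev v b)
    (s : ZMod 7) : Even #{x ∈ B | ZMod.castHom h7 (ZMod 7) x + s ∈ S} := by
  unfold dev at hB
  rw [Multiset.mem_map] at hB
  obtain ⟨⟨i, t⟩, _, rfl⟩ := hB
  simp only
  have h1 := h.even i (ZMod.castHom h7 (ZMod 7) t + s)
  have h2 : #{x ∈ t +ᵥ blk v b i | ZMod.castHom h7 (ZMod 7) x + s ∈ S}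
      = #{k : Fin 5 | ((b i k : ℤ) : ZMod 7) + (ZMod.castHom h7 (ZMod 7) t + s) ∈ S} := by
    symm
    apply Finset.card_bij (fun k _ => t + ((b i k : ℤ) : ZMod v))
    · intro k hk
      simp only [mem_filter, mem_univ, true_and] at hk ⊢
      refine ⟨(mem_vadd_blk t i _).mpr ⟨k, rfl⟩, ?_⟩
      rw [map_add, map_intCast]
      convert hk using 1
      ring
    · intro k _ k' _ hkk
      exact cast_inj h i (add_left_cancel hkk)
    · intro x hx
      rw [mem_filter, mem_vadd_blk] at hx
      obtain ⟨⟨k, rfl⟩, hx⟩ := hx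
      refine ⟨k, ?_, rfl⟩
      simp only [mem_filter, mem_univ, true_and]
      rw [map_add, map_intCast] at hx
      convert hx using 1
      ring
  rw [h2]
  exact h1

/-- The number of points of `ZMod v` in a translate of `S` is even. -/
lemma even_all (h7 : 7 ∣ v) (s : ZMod 7) :
    Even #{x : ZMod v | ZMod.castHom h7 (ZMod 7) x + s ∈ S} := by
  set π := ZMod.castHom h7 (ZMod 7) with hπ
  have h1 : ∀ s : ZMod 7, #{x : ZMod v | π x + s ∈ S} = #{x : ZMod v | π x + 0 ∈ S} := by
    intro s
    apply Finset.card_bij (fun x _ => x + ((s.val : ℕ) : ZMod v))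
    · intro x hx
      simp only [mem_filter, mem_univ, true_and] at hx ⊢
      rw [map_add, map_natCast, ZMod.natCast_zmod_val, add_zero]
      exact hx
    · intro x _ y _ hxy
      exact add_right_cancel hxy
    · intro y hy
      refine ⟨y - ((s.val : ℕ) : ZMod v), ?_, by ring⟩
      simp only [mem_filter, mem_univ, true_and] at hy ⊢
      rw [map_sub, map_natCast, ZMod.natCast_zmod_val]
      convert hy using 1
      ring
  have h2 : ∑ s : ZMod 7, #{x : ZMod v | π x + s ∈ S} = v * 4 := by
    simp only [Finset.card_filter]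
    rw [Finset.sum_comm]
    simp only [← Finset.card_filter, S_card]
    rw [Finset.sum_const, Finset.card_univ, ZMod.card, smul_eq_mul]
  rw [Finset.sum_congr rfl (fun s _ => h1 s), Finset.sum_const, Finset.card_univ, ZMod.card,
    smul_eq_mul] at h2
  rw [h1 s, Nat.even_iff]
  omega

end

end Pool.Agent.Lib.MP_1dd1a8_co_helper82
end
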